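import Pool.Agent.H92.RK.Targets

set_option autoImplicit false

/-!
# MP_8f7db2_an, module POF: smooth functions in polar coordinates
-/

open MeasureTheory Set
open scoped ENNReal

namespace Pool.Agent.H50.RK
open Pool.Agent.H92.RK

lemma pt_eq (r θ : ℝ) :
    pt r θ = (r * Real.cos θ) • (!₂[(1 : ℝ), 0] : E2) + (r * Real.sin θ) • (!₂[(0 : ℝ), 1] : E2) := by
  ext i
  fin_cases i <;> simp [pt]

lemma pt_cont : Continuous (fun p : ℝ × ℝ => pt p.1 p.2) := by
  have h : (fun p : ℝ × ℝ => pt p.1 p.2) = fun p : ℝ × ℝ =>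
      (p.1 * Real.cos p.2) • (!₂[(1 : ℝ), 0] : E2) +
        (p.1 * Real.sin p.2) • (!₂[(0 : ℝ), 1] : E2) := by
    funext p; exact pt_eq _ _
  rw [h]
  fun_prop

lemma pt_dr (r θ : ℝ) : HasDerivAt (fun s => pt s θ) (pt 1 θ) r := by
  have h : (fun s : ℝ => pt s θ) = fun s : ℝ =>
      (s * Real.cos θ) • (!₂[(1 : ℝ), 0] : E2) +
        (s * Real.sin θ) • (!₂[(0 : ℝ), 1] : E2) := by
    funext p; exact pt_eq _ _
  rw [h, pt_eq]
  exact (((hasDerivAt_id r).mul_const (Real.cos θ)).smul_const _).add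
    (((hasDerivAt_id r).mul_const (Real.sin θ)).smul_const _)

lemma pt_dt (r θ : ℝ) : HasDerivAt (fun s => pt r s) (r • pt 1 (θ + Real.pi / 2)) θ := by
  have h : (fun s : ℝ => pt r s) = fun s : ℝ =>
      (r * Real.cos s) • (!₂[(1 : ℝ), 0] : E2) +
        (r * Real.sin s) • (!₂[(0 : ℝ), 1] : E2) := by
    funext p; exact pt_eq _ _
  have h2 : r • pt 1 (θ + Real.pi / 2) = (r * (-Real.sin θ)) • (!₂[(1 : ℝ), 0] : E2) +
      (r * Real.cos θ) • (!₂[(0 : ℝ), 1] : E2) := by
    rw [pt_eq, Real.cos_add_pi_div_two, Real.sin_add_pi_div_two, smul_add, smul_smul, smul_smul]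
    simp
  rw [h, h2]
  exact (((Real.hasDerivAt_cos θ).const_mul r).smul_const _).add
    (((Real.hasDerivAt_sin θ).const_mul r).smul_const _)

lemma pt_norm (r θ : ℝ) : ‖pt r θ‖ ^ 2 = r ^ 2 := by
  rw [EuclideanSpace.norm_sq_eq]
  simp only [pt, Fin.sum_univ_two, Real.norm_eq_abs, sq_abs]
  simp
  nlinarith [Real.sin_sq_add_cos_sq θ]

lemma pt_per (r θ : ℝ) : pt r (θ + 2 * Real.pi) = pt r θ := by
  simp [pt]

lemma pt_zero (θ : ℝ) : pt 0 θ = 0 := by
  ext i
  fin_cases i <;> simp [pt]

lemma norm_lin (l : E2 →L[ℝ] ℝ) (t : ℝ) :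
    ‖l‖ ^ 2 = l (pt 1 t) ^ 2 + l (pt 1 (t + Real.pi / 2)) ^ 2 := by
  obtain ⟨v, rfl⟩ := (InnerProductSpace.toDual ℝ E2).surjective l
  rw [LinearIsometryEquiv.norm_map, EuclideanSpace.norm_sq_eq]
  simp only [InnerProductSpace.toDual_apply_apply, PiLp.inner_apply, Fin.sum_univ_two, pt,
    Real.cos_add_pi_div_two, Real.sin_add_pi_div_two, Real.norm_eq_abs, sq_abs]
  simp
  nlinarith [Real.sin_sq_add_cos_sq t]

theorem pf_POF (hLPO : T_LPO) : T_POF := by
  intro Ω u hu hcs hsub
  have hdiff : Differentiable ℝ u := hu.differentiable (by simp)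
  have hfd : Continuous (fderiv ℝ u) := hu.continuous_fderiv (by simp)
  refine ⟨fun r t => ((fderiv ℝ u (pt r t) (pt 1 t) : ℝ) : ℂ),
    fun r t => ((r * fderiv ℝ u (pt r t) (pt 1 (t + Real.pi / 2)) : ℝ) : ℂ), ?_, ?_, ?_⟩
  · have hc1 : Continuous (fun p : ℝ × ℝ => pt 1 p.2) :=
      pt_cont.comp (continuous_const.prodMk continuous_snd)
    have hc2 : Continuous (fun p : ℝ × ℝ => pt 1 (p.2 + Real.pi / 2)) :=
      pt_cont.comp (continuous_const.prodMk (continuous_snd.add continuous_const))
    refine ⟨?_, ?_, ?_, ?_, ?_, ?_, ?_, ?_, ?_, ?_, ?_⟩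
    · exact Complex.continuous_ofReal.comp (hu.continuous.comp pt_cont)
    · exact Complex.continuous_ofReal.comp ((hfd.comp pt_cont).clm_apply hc1)
    · exact Complex.continuous_ofReal.comp
        (continuous_fst.mul ((hfd.comp pt_cont).clm_apply hc2))
    · intro r θ
      exact ((hdiff (pt r θ)).hasFDerivAt.comp_hasDerivAt r (pt_dr r θ)).ofReal_comp
    · intro r θ
      have h := ((hdiff (pt r θ)).hasFDerivAt.comp_hasDerivAt θ (pt_dt r θ)).ofReal_comp
      have e : (fderiv ℝ u (pt r θ)) (r • pt 1 (θ + Real.pi / 2)) =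
          r * fderiv ℝ u (pt r θ) (pt 1 (θ + Real.pi / 2)) := by
        rw [map_smul, smul_eq_mul]
      rw [e] at h
      exact h
    · intro r θ
      simp only [pt_per]
    · intro r θ
      simp only [pt_per]
    · intro r θ
      have e : θ + 2 * Real.pi + Real.pi / 2 = (θ + Real.pi / 2) + 2 * Real.pi := by ring
      simp only [e, pt_per]
    · obtain ⟨R, hR⟩ := hcs.isCompact.isBounded.subset_closedBall (0 : E2)
      refine ⟨max R 0 + 1, by positivity, ?_⟩
      intro r θ hr
      have hr0 : 0 ≤ r := le_trans (by positivity) hr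
      have hn : ‖pt r θ‖ = r := by
        have h := pt_norm r θ
        exact (pow_left_inj₀ (norm_nonneg _) hr0 (by norm_num)).mp h
      have hz : u (pt r θ) = 0 := by
        by_contra hne
        have h1 : pt r θ ∈ tsupport u := subset_tsupport _ hne
        have h2 := hR h1
        rw [mem_closedBall_zero_iff, hn] at h2
        have := le_max_left R 0
        linarith
      simp [hz]
    · intro θ θ'
      simp only [pt_zero]
    · intro θ
      have hcl : IsClosed {r : ℝ | pt r θ ∈ tsupport u} :=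
        (isClosed_tsupport u).preimage (pt_cont.comp (continuous_id.prodMk continuous_const))
      refine (closure_minimal ?_ hcl).trans fun r hr => hsub hr
      intro r hr
      have hr' : u (pt r θ) ≠ 0 := by
        intro h0
        apply hr
        simp [h0]
      exact subset_tsupport _ hr'
  · have hint : Integrable (fun z => u z ^ 2) := by
      have h1 : Continuous fun z : E2 => u z ^ 2 := hu.continuous.pow 2
      have h2 : HasCompactSupport fun z : E2 => u z ^ 2 :=
        hcs.comp_left (g := fun x : ℝ => x ^ 2) (by simp)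
      exact h1.integrable_of_hasCompactSupport h2
    rw [ofReal_integral_eq_lintegral_ofReal hint (Filter.Eventually.of_forall fun z => sq_nonneg _),
      hLPO (fun z => ENNReal.ofReal (u z ^ 2))
        (hu.continuous.pow 2).measurable.ennreal_ofReal]
    unfold NN
    refine setLIntegral_congr_fun measurableSet_Ioi fun r hr => ?_
    refine setLIntegral_congr_fun measurableSet_Ioo fun θ hθ => ?_
    simp only []
    rw [ENNReal.ofReal_mul (by positivity)]
    simp [Complex.norm_real]
  · have hcs' : HasCompactSupport (fderiv ℝ u) := hcs.fderiv (𝕜 := ℝ)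
    have hint : Integrable (fun z => ‖fderiv ℝ u z‖ ^ 2) := by
      have h1 : Continuous fun z : E2 => ‖fderiv ℝ u z‖ ^ 2 := hfd.norm.pow 2
      have h2 : HasCompactSupport fun z : E2 => ‖fderiv ℝ u z‖ ^ 2 :=
        hcs'.comp_left (g := fun x : E2 →L[ℝ] ℝ => ‖x‖ ^ 2) (by simp)
      exact h1.integrable_of_hasCompactSupport h2
    rw [ofReal_integral_eq_lintegral_ofReal hint (Filter.Eventually.of_forall fun z => sq_nonneg _),
      hLPO (fun z => ENNReal.ofReal (‖fderiv ℝ u z‖ ^ 2))
        (hfd.norm.pow 2).measurable.ennreal_ofReal]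
    unfold EN
    refine setLIntegral_congr_fun measurableSet_Ioi fun r hr => ?_
    refine setLIntegral_congr_fun measurableSet_Ioo fun θ hθ => ?_
    have hr0 : (0 : ℝ) < r := hr
    simp only []
    rw [ENNReal.ofReal_mul (by positivity), norm_lin (fderiv ℝ u (pt r θ)) θ]
    congr 2
    rw [Complex.norm_real, Complex.norm_real, Real.norm_eq_abs, Real.norm_eq_abs, sq_abs, sq_abs]
    field_simp

end Pool.Agent.H50.RK
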